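import Pool.Agent.K4H88.Tur.Extremal

/-!
# A larger constant in de Caen's bound for `π(K_m^3)`, for every `m`

The notions are those of `Pool.Agent.H120R2.CliqueDefs`: `ex n 3 m = ex(n, K_m^3)` and
`turanDensity 3 m = π(K_m^3)`.

Outline.  Let `T` be the family of non-edges of an extremal `K_m^3`-free family; by cloning, its
degrees are equal up to `O(n)`.  Take a random independent set `S` of `T` with probability
proportional to `λ^|S|` (the hard-core measure).  Let `ν` be the mean of `|S|`, `x` the mean
proportion of the vertices which extend `S`, `y = 1 - x`, `w` the mean over the vertices of the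
number of `a ∈ S` which meet all pairs of `S` blocking the vertex, and `u = ν² t`, where `t` is the
density of `T`.
* Covariance inequality (the grand canonical form of de Caen's recursion):
  `Var |S| ≥ ν / (1 + w / x)`.
* Counting inequality: `u ≥ (5/6) w² + x (4 y + w) / 3`.  If removing `a ∈ S` frees both `z` and
  `z'`, then `S \ {a}` cannot be extended by both, up to configurations counted by vertices with two
  blocking pairs; so `z z'` forms a triple of `T` with some member of `S`.  The pairs `z z'` freed by
  two members `a, b` and blocked by a single third one are at most one third of all, because the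
  measure is invariant under the exchange of `a`, `z`, `z'`.
* These two inequalities give a differential inequality for `y` as a function of `u`; an explicit
  polynomial barrier shows `y < 1` as long as `u < 2.53`.  Since `y → 1` and `ν → α(T) ≤ m - 1` for
  `λ → ∞`, one gets `(m - 1)² t ≥ 2.53`.
-/

set_option autoImplicit false

open Filter Topology

namespace Pool.Agent.K4H88.Cand.DeCaenConstant

open Pool.Agent.H120R2.Clique

/-- For every `m ≥ 3` the limit `π(K_m^3)` of `ex(n, K_m^3) / C(n,3)` exists and
`π(K_m^3) ≤ 1 - 2.53 / (m - 1)^2`; for every `m ≥ 6` this is strictly smaller than de Caen's bound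
`1 - 1 / C(m - 1, 2)`. -/
theorem result : ∀ m : ℕ, 3 ≤ m →
    Tendsto (fun n : ℕ => (ex n 3 m : ℝ) / (n.choose 3 : ℝ)) atTop (𝓝 (turanDensity 3 m)) ∧
    turanDensity 3 m ≤ 1 - 2.53 / ((m : ℝ) - 1) ^ 2 ∧
    (6 ≤ m → 1 - 2.53 / ((m : ℝ) - 1) ^ 2 < 1 - 1 / ((m - 1).choose 2 : ℝ)) := by
  intro m hm
  refine ⟨ratio_tendsto 3 m, ?_, ?_⟩
  · have h := Pool.Agent.K4H88.Tur.main_bound Pool.Agent.K4H88.Tur.barrier (by norm_num) m hm
    have ha : (0 : ℝ) < (m : ℝ) - 1 := by
      have : (3 : ℝ) ≤ (m : ℝ) := by exact_mod_cast hm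
      linarith
    have ha2 : 0 < ((m : ℝ) - 1) ^ 2 := by positivity
    have h2 : (2.53 : ℝ) ≤ ((m : ℝ) - 1) ^ 2 * (1 - turanDensity 3 m) := by
      refine le_trans ?_ h
      norm_num
    have h3 : 2.53 / ((m : ℝ) - 1) ^ 2 ≤ 1 - turanDensity 3 m := by
      rw [div_le_iff₀ ha2]; linarith
    linarith
  · intro h6
    obtain ⟨k, rfl⟩ : ∃ k, m = k + 2 := ⟨m - 2, by omega⟩
    have hk : (4 : ℝ) ≤ k := by
      have : 4 ≤ k := by omega
      exact_mod_cast this
    have e : ((k + 2 - 1).choose 2 : ℝ) = ((k : ℝ) + 1) * k / 2 := by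
      have h1 : k + 2 - 1 = k + 1 := by omega
      rw [h1, Nat.cast_choose_two]
      push_cast
      ring
    rw [e]
    push_cast
    have h5 : 1 / (((k : ℝ) + 1) * k / 2) < 2.53 / ((k : ℝ) + 2 - 1) ^ 2 := by
      rw [div_lt_div_iff₀ (by positivity) (by nlinarith)]
      nlinarith
    linarith

end Pool.Agent.K4H88.Cand.DeCaenConstant
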